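import Pool.Agent.MP_24fbf1_an.Mg.Bi_Final

/-!
The inverse of an operator Lipschitz function is operator Lipschitz exactly when the derivative is
bounded away from zero.
-/

set_option autoImplicit false

universe u v

namespace Pool.Agent.Results.MP_24fbf1_an.InverseIff

open Pool.Agent.MP_24fbf1_an.Bi

/-- `f` is operator Lipschitz on `J`: continuous on `J`, with one constant `C` for all complex
Hilbert spaces (in the universe `u`) and all bounded self-adjoint operators with spectra in `J`. -/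
def OperatorLipschitzOn (f : ℝ → ℝ) (J : Set ℝ) : Prop :=
  ContinuousOn f J ∧
    ∃ C : ℝ, ∀ (H : Type u) [NormedAddCommGroup H] [InnerProductSpace ℂ H] [CompleteSpace H],
      Est H f J C

theorem result (f f' : ℝ → ℝ) (a b : ℝ) (hab : a < b)
    (hf : OperatorLipschitzOn.{u} f (Set.Icc a b))
    (hd : ∀ x ∈ Set.Icc a b, HasDerivWithinAt f (f' x) (Set.Icc a b) x) :
    (∃ g : ℝ → ℝ, (∀ x ∈ Set.Icc a b, g (f x) = x) ∧
        OperatorLipschitzOn.{v} g (Set.uIcc (f a) (f b))) ↔
      ∃ m : ℝ, 0 < m ∧ ∀ x ∈ Set.Icc a b, m ≤ |f' x| := by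
  obtain ⟨hc, C, hC⟩ := hf
  constructor
  · rintro ⟨g, hg, -, D, hD⟩
    have hi : Set.InjOn f (Set.Icc a b) := fun x hx y hy e => by rw [← hg x hx, ← hg y hy, e]
    have key : ∀ x ∈ Set.Icc a b, 1 ≤ D * |f' x| := fun x hx =>
      deriv_of_upper hab hx (hd x hx) fun y hy => by
        have := lip_of_est (hD _) (maps_uIcc hab.le hc hi hy) (maps_uIcc hab.le hc hi hx)
        rwa [hg x hx, hg y hy] at this
    have hD0 : 0 < D := by
      by_contra h0
      have := key a ⟨le_rfl, hab.le⟩
      nlinarith [abs_nonneg (f' a)]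
    exact ⟨1 / D, by positivity, fun x hx => by
      rw [div_le_iff₀ hD0, mul_comm]
      exact key x hx⟩
  · rintro ⟨m, hm, h⟩
    have hl := lower_of_deriv hc hd h
    have hg : ∀ x ∈ Set.Icc a b, Function.invFunOn f (Set.Icc a b) (f x) = x :=
      fun x hx => (inj_of_lower hm hl).leftInvOn_invFunOn hx
    have hgc : ContinuousOn (Function.invFunOn f (Set.Icc a b)) (Set.uIcc (f a) (f b)) := by
      refine (LipschitzOnWith.of_dist_le' (K := 1 / m) fun p hp q hq => ?_).continuousOn
      obtain ⟨x, hx, rfl⟩ := surj_uIcc hab.le hc hp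
      obtain ⟨y, hy, rfl⟩ := surj_uIcc hab.le hc hq
      rw [hg x hx, hg y hy, Real.dist_eq, Real.dist_eq, one_div, le_inv_mul_iff₀ hm]
      exact hl x hx y hy
    obtain ⟨M, hM, hM'⟩ := mulDiff_inverse.{u} hab.le hc (le_max_right C 0)
      (fun γ _ A B h1 h2 h3 h4 => (hC _ A B h1 h2 h3 h4).trans
        (mul_le_mul_of_nonneg_right (le_max_left C 0) (norm_nonneg _))) hm hl hg
    exact ⟨_, hg, hgc, 2 * M, fun H _ _ _ => est_of_mulDiff inf_le_sup hgc hM hM'⟩

end Pool.Agent.Results.MP_24fbf1_an.InverseIff
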