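import Pool.Agent.MP_24fbf1_an.OpLip

/-!
An operator Lipschitz function with nowhere vanishing derivative whose inverse is not operator
Lipschitz.
-/

set_option autoImplicit false

universe u v

namespace Pool.Agent.Results.MP_24fbf1_an.InverseNotOL

open Pool.Agent.MP_24fbf1_an

lemma cex_deriv_pos : ∀ x ∈ Set.Icc (0:ℝ) 1, ∃ d : ℝ, 0 < d ∧ HasDerivAt cex d x := by
  intro x hx
  rcases hx.1.eq_or_lt with h | h
  · subst h
    exact ⟨1, one_pos, cex_hasDerivAt_zero⟩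
  · refine ⟨_, ?_, cex_hasDerivAt x h.ne'⟩
    have h1 := Real.neg_one_le_sin x⁻¹
    have h2 := Real.cos_le_one x⁻¹
    nlinarith

lemma cex_strictMonoOn : StrictMonoOn cex (Set.Icc 0 1) := by
  refine strictMonoOn_of_deriv_pos (convex_Icc 0 1) cex_continuous.continuousOn fun x hx => ?_
  obtain ⟨d, hd, h⟩ := cex_deriv_pos x (interior_subset hx)
  rwa [h.deriv]

lemma cex_image : cex '' Set.Icc 0 1 = Set.Icc (cex 0) (cex 1) := by
  refine Set.Subset.antisymm ?_ (intermediate_value_Icc zero_le_one cex_continuous.continuousOn)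
  rintro _ ⟨x, hx, rfl⟩
  exact ⟨cex_strictMonoOn.monotoneOn ⟨le_rfl, zero_le_one⟩ hx hx.1,
    cex_strictMonoOn.monotoneOn hx ⟨zero_le_one, le_rfl⟩ hx.2⟩

/-- The operator Lipschitz estimate with constant C for f on the set J, on the Hilbert space H. -/
def OpLipOn (H : Type*) [NormedAddCommGroup H] [InnerProductSpace ℂ H] [CompleteSpace H]
    (f : ℝ → ℝ) (J : Set ℝ) (C : ℝ) : Prop :=
  ∀ A B : H →L[ℂ] H, IsSelfAdjoint A → IsSelfAdjoint B → spectrum ℝ A ⊆ J → spectrum ℝ B ⊆ J →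
    ‖cfc f A - cfc f B‖ ≤ C * ‖A - B‖

/-- The function f x = x + 2 x ^ 2 + x ^ 2 sin (1 / x) is operator Lipschitz on [0, 1] and has a
positive derivative at every point of [0, 1]; its inverse g is continuous on [f 0, f 1] and is not
operator Lipschitz there, on any nonzero Hilbert space. -/
theorem result :
    ∃ f g : ℝ → ℝ,
      (∀ x : ℝ, f x = x + 2 * x ^ 2 + x ^ 2 * Real.sin (1 / x)) ∧
      ContinuousOn f (Set.Icc 0 1) ∧
      (∀ (H : Type u) [NormedAddCommGroup H] [InnerProductSpace ℂ H] [CompleteSpace H],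
        OpLipOn H f (Set.Icc 0 1) 10) ∧
      (∀ x ∈ Set.Icc (0 : ℝ) 1, ∃ d : ℝ, 0 < d ∧ HasDerivAt f d x) ∧
      StrictMonoOn f (Set.Icc 0 1) ∧
      f '' Set.Icc 0 1 = Set.Icc (f 0) (f 1) ∧
      (∀ x ∈ Set.Icc (0 : ℝ) 1, g (f x) = x) ∧
      (∀ y ∈ Set.Icc (f 0) (f 1), g y ∈ Set.Icc (0 : ℝ) 1 ∧ f (g y) = y) ∧
      ContinuousOn g (Set.Icc (f 0) (f 1)) ∧
      ∀ (H : Type v) [NormedAddCommGroup H] [InnerProductSpace ℂ H] [CompleteSpace H]
        [Nontrivial H] (C : ℝ), ¬ OpLipOn H g (Set.Icc (f 0) (f 1)) C := by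
  have hinj : Set.InjOn cex (Set.Icc 0 1) := cex_strictMonoOn.injOn
  have hl : ∀ x ∈ Set.Icc (0 : ℝ) 1, Function.invFunOn cex (Set.Icc 0 1) (cex x) = x :=
    fun x hx => hinj.leftInvOn_invFunOn hx
  have hr : ∀ y ∈ Set.Icc (cex 0) (cex 1), Function.invFunOn cex (Set.Icc 0 1) y ∈ Set.Icc (0 : ℝ) 1
      ∧ cex (Function.invFunOn cex (Set.Icc 0 1) y) = y := by
    intro y hy
    rw [← cex_image] at hy
    obtain ⟨x, hx, rfl⟩ := hy
    rw [hl x hx]
    exact ⟨hx, rfl⟩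
  refine ⟨cex, Function.invFunOn cex (Set.Icc 0 1), fun x => ?_, cex_continuous.continuousOn,
    fun H _ _ _ A B hA hB hsA hsB => cex_est A B hA hB hsA hsB, cex_deriv_pos, cex_strictMonoOn,
    cex_image, hl, hr, ?_, ?_⟩
  · simp only [cex, osc, one_div]
    ring
  · rw [continuousOn_iff_isClosed]
    intro t ht
    refine ⟨cex '' (t ∩ Set.Icc 0 1),
      ((isCompact_Icc.inter_left ht).image cex_continuous).isClosed, ?_⟩
    ext y
    constructor
    · rintro ⟨h1, h2⟩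
      exact ⟨⟨_, ⟨h1, (hr y h2).1⟩, (hr y h2).2⟩, h2⟩
    · rintro ⟨⟨x, hx, rfl⟩, h2⟩
      refine ⟨?_, h2⟩
      rw [Set.mem_preimage, hl x hx.2]
      exact hx.1
  · intro H _ _ _ _ C hcon
    have h01 : cex 0 ≤ cex 1 :=
      cex_strictMonoOn.monotoneOn ⟨le_rfl, zero_le_one⟩ ⟨zero_le_one, le_rfl⟩ zero_le_one
    refine not_lip _ hl C fun x hx y hy => ?_
    rw [Set.uIcc_of_le h01] at hx hy
    have hsp : ∀ r : ℝ, spectrum ℝ (algebraMap ℝ (H →L[ℂ] H) r) = {r} := fun r =>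
      spectrum.scalar_eq r
    have hsa : ∀ r : ℝ, IsSelfAdjoint (algebraMap ℝ (H →L[ℂ] H) r) := fun r =>
      IsSelfAdjoint.algebraMap _ (IsSelfAdjoint.all r)
    have h := hcon (algebraMap ℝ _ x) (algebraMap ℝ _ y) (hsa x) (hsa y)
      (by rw [hsp]; exact Set.singleton_subset_iff.2 hx)
      (by rw [hsp]; exact Set.singleton_subset_iff.2 hy)
    rw [cfc_algebraMap, cfc_algebraMap, ← map_sub, ← map_sub, norm_algebraMap',
      norm_algebraMap'] at h
    exact h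

end Pool.Agent.Results.MP_24fbf1_an.InverseNotOL
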